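import Mathlib
import Pool.Agent.H6.SelfInv

namespace Pool.Agent.Results.MP_0f7e3c_al.NotIso

open MvPowerSeries Pool.Agent.H6.SelfInv

/-- The linear form attached to a vector. -/
noncomputable def form {n : ℕ} (α : Fin n → ℂ) : MvPowerSeries (Fin n) ℂ := ∑ i, C (α i) * X i

/-- `P` lies in the completion of the subalgebra generated by the forms of `Ξ`. -/
def InA {n : ℕ} (Ξ : Set (Fin n → ℂ)) (P : MvPowerSeries (Fin n) ℂ) : Prop :=
  ∀ N : ℕ, ∃ Q ∈ Algebra.adjoin ℂ (form '' Ξ), (N : ℕ∞) ≤ (P - Q).order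

section
variable {S : Type} [CommRing S] [Algebra ℂ S]

noncomputable def J (S : Type) [CommRing S] [Algebra ℂ S] : S := algebraMap ℂ S Complex.I

lemma J_sq : J S ^ 2 = -1 := by
  unfold J; rw [← map_pow, Complex.I_sq]; simp

noncomputable def A (z : Fin 6 → S) : S := z 0 - J S * z 3 + (z 2 + J S * z 5) * (z 1 - J S * z 4)
noncomputable def h (z : Fin 6 → S) : S := z 1 + J S * z 4 - (z 0 + J S * z 3) * (z 2 + J S * z 5)
noncomputable def G (v z : Fin 6 → S) : S :=
  h z * (v 0 - J S * v 3 + (z 2 + J S * z 5) * (v 1 - J S * v 4)) +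
  A z * (v 1 + J S * v 4 - (z 2 + J S * z 5) * (v 0 + J S * v 3)) +
  ((z 1 - J S * z 4) * h z - (z 0 + J S * z 3) * A z) * (v 2 + J S * v 5)

lemma dJ (d : Derivation ℂ S S) : d (J S) = 0 := d.map_algebraMap Complex.I

lemma dP (d : Derivation ℂ S S) (z : Fin 6 → S) : d (A z * h z) = G (fun i => d (z i)) z := by
  simp only [A, h, G, map_add, map_sub, Derivation.leibniz, smul_eq_mul, dJ]
  ring

lemma nil4 (α β γ ε : Fin 6 → S) (h1 : α ⬝ᵥ α = 0) (h2 : α ⬝ᵥ β = 0) (h3 : β ⬝ᵥ β = 0)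
    (h4 : α ⬝ᵥ γ = 0) (h5 : β ⬝ᵥ γ = 0) (h6 : γ ⬝ᵥ γ = 0) (h7 : γ ⬝ᵥ ε = 0) :
    (Matrix.of fun i j => α i * β j + β i * α j + γ i * ε j + ε i * γ j) ^ 4 = 0 := by
  obtain ⟨p, hp⟩ : ∃ p, α ⬝ᵥ ε = p := ⟨_, rfl⟩
  obtain ⟨q, hq⟩ : ∃ q, β ⬝ᵥ ε = q := ⟨_, rfl⟩
  obtain ⟨r, hr⟩ : ∃ r, ε ⬝ᵥ ε = r := ⟨_, rfl⟩
  simp only [dotProduct, Fin.sum_univ_six] at *
  have e : (Matrix.of fun i j => α i * β j + β i * α j + γ i * ε j + ε i * γ j) ^ 2
      = Matrix.of fun i j => (q * α i + p * β i) * γ j + γ i * (q * α j + p * β j)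
        + r * γ i * γ j := by
    ext1 i j
    simp only [pow_two, Matrix.mul_apply, Matrix.of_apply, Fin.sum_univ_six]
    linear_combination β i * β j * h1 + (α i * β j + β i * α j) * h2 + α i * α j * h3
      + (β i * ε j + ε i * β j) * h4 + (α i * ε j + ε i * α j) * h5 + ε i * ε j * h6
      + (γ i * ε j + ε i * γ j) * h7 + (β i * γ j + γ i * β j) * hp
      + (α i * γ j + γ i * α j) * hq + γ i * γ j * hr
  rw [show (4 : ℕ) = 2 * 2 from rfl, pow_mul, e]
  ext1 i j
  simp only [pow_two, Matrix.mul_apply, Matrix.of_apply, Fin.sum_univ_six, Matrix.zero_apply]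
  linear_combination γ i * γ j * q ^ 2 * h1 + 2 * γ i * γ j * p * q * h2 + γ i * γ j * p ^ 2 * h3
    + q * ((q * α i + p * β i) * γ j + γ i * (q * α j + p * β j) + 2 * r * γ i * γ j) * h4
    + p * ((q * α i + p * β i) * γ j + γ i * (q * α j + p * β j) + 2 * r * γ i * γ j) * h5
    + ((q * α i + p * β i + r * γ i) * (q * α j + p * β j + r * γ j)) * h6
end

abbrev R := MvPowerSeries (Fin 6) ℂ

noncomputable def p : MvPolynomial (Fin 6) ℂ := A MvPolynomial.X * h MvPolynomial.X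
noncomputable def P : R := A X * h X

lemma coe_p : (p : R) = P := by
  have e : (p : R) = MvPolynomial.coeToMvPowerSeries.ringHom p := rfl
  have hJ : MvPolynomial.coeToMvPowerSeries.ringHom (J (MvPolynomial (Fin 6) ℂ)) = J R :=
    MvPolynomial.coe_C _
  rw [e]
  simp only [p, P, A, h, map_add, map_sub, map_mul, hJ,
    MvPolynomial.coeToMvPowerSeries.ringHom_apply, MvPolynomial.coe_X]

lemma pP (j : Fin 6) : pderiv ℂ j P = G (fun i => if i = j then 1 else 0) X := by
  rw [P, dP]; simp only [pX]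

lemma hn : IsNilpotent (Hes P) := by
  refine ⟨4, ?_⟩
  let x3 : R := X 2 + J R * X 5
  let α : Fin 6 → R := ![1, x3, 0, -J R, -J R * x3, 0]
  let β : Fin 6 → R := ![-x3, 1, 0, -J R * x3, J R, 0]
  let γ : Fin 6 → R := ![0, 0, 1, 0, 0, J R]
  let ε : Fin 6 → R := fun i => h X * ![0, 1, 0, 0, -J R, 0] i - A X * ![1, 0, 0, J R, 0, 0] i
    + (X 1 - J R * X 4) * β i - (X 0 + J R * X 3) * α i
    - (X 0 + J R * X 3) * (X 1 - J R * X 4) * γ i
  have e : Hes P = Matrix.of fun i j => α i * β j + β i * α j + γ i * ε j + ε i * γ j := by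
    ext1 i j
    simp only [Hes, Matrix.of_apply, pP, G, A, h, map_add, map_sub, Derivation.leibniz, smul_eq_mul,
      dJ, pX, apply_ite, Derivation.map_one_eq_zero, map_zero]
    fin_cases i <;> fin_cases j <;> simp [α, β, γ, ε, x3, A, h] <;> ring
  rw [e]
  have hJ := J_sq (S := R)
  apply nil4 <;> simp [dotProduct, Fin.sum_univ_six, α, β, γ, ε]
  · linear_combination (1 + x3 ^ 2) * hJ
  · ring
  · linear_combination (1 + x3 ^ 2) * hJ
  · linear_combination hJ
  · linear_combination -((X 0 + J R * X 3) * (X 1 - J R * X 4)) * hJ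

theorem selfInv : SelfInverting P := by
  apply selfInv_of
  · refine le_trans ?_ le_order_mul
    have h1 : 1 ≤ (A X : R).order := one_le_order_iff_constCoeff_eq_zero.mpr (by simp [A])
    have h2 : 1 ≤ (h X : R).order := one_le_order_iff_constCoeff_eq_zero.mpr (by simp [h])
    exact add_le_add h1 h2
  · exact hn.map (RingHom.mapMatrix constantCoeff)
  · intro t φ H
    have hJ : φ (J R) = J R := φ.commutes Complex.I
    have hq := J_sq (S := R)
    have h0 := H 0
    have h1 := H 1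
    have h2 := H 2
    have h3 := H 3
    have h4 := H 4
    have h5 := H 5
    simp [pP, G] at h0 h1 h2 h3 h4 h5
    have e3 : φ (X 2 + J R * X 5) = X 2 + J R * X 5 := by
      rw [map_add, map_mul, hJ, h2, h5]
      linear_combination C t * ((X 1 - J R * X 4) * h X - (X 0 + J R * X 3) * A X) * hq
    have ex1 : φ (X 0 + J R * X 3) = X 0 + J R * X 3 + 2 * C t * h X := by
      rw [map_add, map_mul, hJ, h0, h3]
      linear_combination -C t * (h X + A X * (X 2 + J R * X 5)) * hq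
    have ey1 : φ (X 0 - J R * X 3) = X 0 - J R * X 3 - 2 * C t * (X 2 + J R * X 5) * A X := by
      rw [map_sub, map_mul, hJ, h0, h3]
      linear_combination C t * (h X + A X * (X 2 + J R * X 5)) * hq
    have ex2 : φ (X 1 + J R * X 4) = X 1 + J R * X 4 + 2 * C t * (X 2 + J R * X 5) * h X := by
      rw [map_add, map_mul, hJ, h1, h4]
      linear_combination C t * (A X - h X * (X 2 + J R * X 5)) * hq
    have ey2 : φ (X 1 - J R * X 4) = X 1 - J R * X 4 + 2 * C t * A X := by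
      rw [map_sub, map_mul, hJ, h1, h4]
      linear_combination -C t * (A X - h X * (X 2 + J R * X 5)) * hq
    have eA : φ (A X) = A X := by
      conv_lhs => rw [A, map_add, map_mul, ey1, e3, ey2]
      have : (A X : R) = X 0 - J R * X 3 + (X 2 + J R * X 5) * (X 1 - J R * X 4) := rfl
      linear_combination -this
    have eh : φ (h X) = h X := by
      conv_lhs => rw [h, map_sub, map_mul, ex2, e3, ex1]
      have : (h X : R) = X 1 + J R * X 4 - (X 0 + J R * X 3) * (X 2 + J R * X 5) := rfl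
      linear_combination -this
    intro j
    have hv : ∀ i, φ (if i = j then 1 else 0) = if i = j then 1 else 0 := fun i => by
      split_ifs <;> simp
    rw [pP, G, map_add, map_add, map_mul, map_mul, map_mul, map_sub φ (_ * h X), map_mul, map_mul,
      eA, eh, ex1, ey2, map_add φ (_ - _), map_mul, e3, map_sub φ (_ + _), map_mul, e3]
    simp only [map_add, map_sub, map_mul, hJ, hv]
    ring

noncomputable def D (β : Fin 6 → ℂ) : Derivation ℂ R R := ∑ i, β i • pderiv ℂ i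

lemma D_apply (β : Fin 6 → ℂ) (f : R) : D β f = ∑ i, β i • pderiv ℂ i f := by
  simp [D, Fin.sum_univ_six]

lemma kill {Ξ : Set (Fin 6 → ℂ)} (hP : InA Ξ P) (β : Fin 6 → ℂ)
    (hβ : ∀ α ∈ Ξ, ∑ i, α i * β i = 0) : D β P = 0 := by
  have h1 : ∀ Q ∈ Algebra.adjoin ℂ (form '' Ξ), D β Q = 0 := by
    intro Q hQ
    induction hQ using Algebra.adjoin_induction with
    | mem x hx =>
      obtain ⟨α, hα, rfl⟩ := hx
      have := congrArg (C (σ := Fin 6) (R := ℂ)) (hβ α hα)
      have hC : ∀ (c : ℂ) (i : Fin 6), pderiv ℂ i (C c : R) = 0 := fun c i =>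
        (pderiv ℂ i).map_algebraMap c
      simp only [map_add, map_mul, map_zero, Fin.sum_univ_six] at this
      simp [D_apply, form, Fin.sum_univ_six, Derivation.leibniz, pX, hC, smul_eq_C_mul]
      linear_combination this
    | algebraMap r => exact (D β).map_algebraMap r
    | add x y _ _ hx hy => rw [map_add, hx, hy, add_zero]
    | mul x y _ _ hx hy => rw [Derivation.leibniz, hx, hy]; simp
  ext m
  obtain ⟨Q, hQ, hN⟩ := hP (m.degree + 2)
  have : D β P = D β (P - Q) := by rw [map_sub, h1 Q hQ, sub_zero]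
  rw [this, D_apply, map_sum, map_zero]
  refine Finset.sum_eq_zero fun i _ => ?_
  rw [map_smul, coeff_pderiv, coeff_of_lt_order, zero_mul, smul_zero]
  refine lt_of_lt_of_le ?_ hN
  rw [map_add, Finsupp.degree_single]
  exact_mod_cast Nat.lt_succ_self _

lemma evalG {β : Fin 6 → ℂ} (hβ : D β P = 0) (v : Fin 6 → ℂ) : G β v = 0 := by
  let d : Derivation ℂ (MvPolynomial (Fin 6) ℂ) (MvPolynomial (Fin 6) ℂ) :=
    ∑ i, β i • MvPolynomial.pderiv i
  have hd : ∀ f, d f = ∑ i, β i • MvPolynomial.pderiv i f := fun f => by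
    simp [d, Fin.sum_univ_six]
  have h1 : d p = 0 := by
    apply MvPolynomial.coe_injective
    rw [MvPolynomial.coe_zero, ← hβ, D_apply, ← coe_p, hd]
    simp [Fin.sum_univ_six, pderiv_coe]
  rw [p, dP] at h1
  have h2 : ∀ i, d (MvPolynomial.X i) = MvPolynomial.C (β i) := fun i => by
    rw [hd]
    fin_cases i <;> simp [Fin.sum_univ_six, MvPolynomial.C_eq_smul_one]
  have := congrArg (MvPolynomial.eval v) h1
  simpa [G, A, h, J, h2] using this

theorem result : ∃ (n : ℕ) (p : MvPolynomial (Fin n) ℂ),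
    SelfInverting (p : MvPowerSeries (Fin n) ℂ) ∧ IsNilpotent (Hes (p : MvPowerSeries (Fin n) ℂ)) ∧
    ∀ Ξ : Set (Fin n → ℂ), Ξ.Nonempty → (∀ α ∈ Ξ, ∀ β ∈ Ξ, ∑ i, α i * β i = 0) →
      ¬ InA Ξ (p : MvPowerSeries (Fin n) ℂ) := by
  refine ⟨6, p, ?_⟩
  rw [coe_p]
  refine ⟨selfInv, hn, fun Ξ _ hΞ hP => ?_⟩
  have hI := Complex.I_mul_I
  have h0 : ∀ α ∈ Ξ, α 0 = 0 := by
    intro α hα
    have hk := kill hP α (fun β hβ => hΞ β hβ α hα)
    have e1 := evalG hk ![0, 1, 0, 0, -Complex.I, 0]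
    have e2 := evalG hk ![1, 0, 0, Complex.I, 0, 0]
    have e3 := evalG hk ![1, 0, 1, Complex.I, 0, 0]
    simp [G, A, h, J] at e1 e2 e3
    linear_combination (e1 + e2 - e3) / 2
  have hk := kill hP ![1, 0, 0, 0, 0, 0] (fun α hα => by simp [Fin.sum_univ_six, h0 α hα])
  have e1 := evalG hk ![0, 1, 0, 0, 0, 0]
  simp [G, A, h, J] at e1

end Pool.Agent.Results.MP_0f7e3c_al.NotIso
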